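import Pool.Agent.helper52.HY.Spec
import Pool.Agent.helper24.BR.MBB

/-!
# Project hy: module VKB: the domains `V_k`
-/

set_option autoImplicit false

open Complex Metric Set Filter Topology MeasureTheory
open Pool.Agent.helper98.ILF Pool.Agent.helper16.Multibrot

noncomputable section

namespace HY

lemma VKB_cont (n : ℕ) (c : ℂ) (k : ℕ) : Continuous ((fz n c)^[k]) := by
  have h : Continuous (fz n c) := by
    unfold fz
    fun_prop
  exact h.iterate k

lemma VKB_mem (n : ℕ) (c : ℂ) (k : ℕ) (z : ℂ) : z ∈ VV n c k ↔ ‖(fz n c)^[k] z‖ < 4 := Iff.rfl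

lemma VKB_grow {n : ℕ} (hn : 2 ≤ n) {c : ℂ} (hc : ‖c‖ ≤ 2) {z : ℂ} (hz : 4 ≤ ‖z‖) :
    8 ≤ ‖fz n c z‖ := by
  have h1 : 2 * ‖z‖ ≤ ‖z ^ n + c‖ := growth hn (by linarith)
  have h2 : fz n c z = z ^ n + c := rfl
  rw [h2]
  linarith

lemma VKB_step {n : ℕ} (hn : 2 ≤ n) {c : ℂ} (hc : ‖c‖ ≤ 2) (k : ℕ) (z : ℂ)
    (h : ‖(fz n c)^[k + 1] z‖ < 8) : ‖(fz n c)^[k] z‖ < 4 := by
  by_contra h1
  push Not at h1
  have h2 := VKB_grow hn hc h1
  rw [Function.iterate_succ_apply'] at h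
  linarith

lemma VKB_fil {n : ℕ} (hn : 2 ≤ n) (c : ℂ) (z : ℂ) (hz : z ∈ filled n c) :
    fz n c z ∈ filled n c := by
  have h1 := preimage_filled hn c
  rw [← h1] at hz
  exact hz

lemma VKB_filit {n : ℕ} (hn : 2 ≤ n) (c : ℂ) (k : ℕ) (z : ℂ) (hz : z ∈ filled n c) :
    (fz n c)^[k] z ∈ filled n c := by
  induction k with
  | zero => exact hz
  | succ k ih =>
    rw [Function.iterate_succ_apply']
    exact VKB_fil hn c _ ih

lemma VKB_fil4 {n : ℕ} (hn : 2 ≤ n) {c : ℂ} (hc : ‖c‖ ≤ 2) (z : ℂ) (hz : z ∈ filled n c) :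
    ‖z‖ < 4 := by
  by_contra h1
  push Not at h1
  have h2 := VKB_grow hn hc h1
  have h3 : ‖fz n c z‖ ≤ 2 + ‖c‖ := hz 1
  linarith

theorem VKB : VKB_stmt := by
  intro n c hn hcM
  obtain ⟨hc, horb⟩ := (BR.MBB n c hn).1 hcM
  have h0 : (0 : ℂ) ∈ filled n c := by
    intro k
    have h1 : ‖(fun z : ℂ => z ^ n + c)^[k] 0‖ ≤ 2 := horb k
    have h2 := norm_nonneg c
    linarith
  have hcf : c ∈ filled n c := by
    have h1 := VKB_fil hn c 0 h0
    have h2 : fz n c 0 = c := by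
      have h3 : fz n c 0 = 0 ^ n + c := rfl
      rw [h3, zero_pow (by omega), zero_add]
    rwa [h2] at h1
  refine ⟨hc, h0, hcf, isCompact_filled n c, fun z hz => VKB_fil hn c z hz, ?_, ?_, ?_, ?_, ?_, ?_, ?_⟩
  · intro k
    exact isOpen_lt (VKB_cont n c k).norm continuous_const
  · intro k z hz
    rw [VKB_mem] at hz
    rw [mem_ball_zero_iff]
    by_contra h1
    push Not at h1
    have h2 : ‖z‖ ≤ ‖(fz n c)^[k] z‖ := le_iterate_of_large hn (by linarith) k
    linarith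
  · intro k z hz
    rw [VKB_mem] at hz ⊢
    exact VKB_step hn hc k z (by linarith)
  · intro k
    ext z
    rw [VKB_mem, Function.iterate_succ_apply]
    exact Iff.rfl
  · intro k z hz
    rw [VKB_mem]
    exact VKB_fil4 hn hc _ (VKB_filit hn c k z hz)
  · intro k z hz
    by_contra h1
    obtain ⟨k₀, hk₀⟩ := exists_of_notMem_filled hn h1 4
    have h2 : 4 < ‖(fz n c)^[max k k₀] z‖ := hk₀ (max k k₀) (le_max_right _ _)
    have h3 := hz (max k k₀) (le_max_left _ _)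
    rw [VKB_mem] at h3
    linarith
  · intro k
    have h1 : closure (VV n c (k + 1)) ⊆ {z | ‖(fz n c)^[k + 1] z‖ ≤ 4} := by
      apply closure_minimal
      · intro z hz
        rw [VKB_mem] at hz
        exact hz.le
      · exact isClosed_le (VKB_cont n c (k + 1)).norm continuous_const
    intro z hz
    have h2 : ‖(fz n c)^[k + 1] z‖ ≤ 4 := h1 hz
    rw [VKB_mem]
    exact VKB_step hn hc k z (by linarith)

end HY
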